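import Pool.Agent.DChain.Power

/-!
# Varieties with finite `d`-generated members of small derived length or class
-/

set_option autoImplicit false

namespace Pool.Agent.Results.MP_01f347_al.DerivedLength

open Pool.Agent.DChain

theorem result (d k j : ℕ) (hd : 1 ≤ d) (hkj : k + j ≤ d) (W : Set (FreeGroup (Fin k)))
    (L : Set (FreeGroup ℕ)) (hW : Good L W) (hL : FiniteGen d L)
    (hs : ∀ (H : Type) [Group H], Obeys L H → Gen d H →
      (∀ w ∈ W, ∀ f : Fin k → H,
        derivedSeries (Subgroup.normalClosure {FreeGroup.lift f w}) j = ⊥) ∨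
      (⊤ : Subgroup H).lowerCentralSeries (2 ^ (j + 1) - 2) = ⊥) : LocFin L :=
  locFin_of_derived hd hkj W L hW hL hs

end Pool.Agent.Results.MP_01f347_al.DerivedLength
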