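import Pool.Agent.NPR.Main

/-!
# Reduction of the question of B. H. and H. Neumann to `p`-groups, `d ≥ 6`
-/

set_option autoImplicit false

namespace Pool.Agent.Results.MP_01f347_al.PGroupReduction

open Pool.Agent.DChain

theorem result (d : ℕ) (hd : 6 ≤ d) (L : Set (FreeGroup ℕ)) (hL : FiniteGen d L)
    (h2 : ∀ (S : Type) [Group S], Obeys L S → Finite S → IsSimpleGroup S → Gen 2 S) :
    LocFin L ↔ ∀ p : ℕ, p.Prime → PLocFin p L :=
  ⟨fun h _ _ B _ hB hfg _ => h B hB hfg, fun h => Pool.Agent.NPR.main hd hL h2 h⟩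

end Pool.Agent.Results.MP_01f347_al.PGroupReduction
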