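import Pool.Agent.DChain.Reduce

/-!
# Reduction to `p`-groups for varieties whose `d`-generated members are finite and soluble
-/

set_option autoImplicit false

namespace Pool.Agent.Results.MP_01f347_al.SolubleReduction

open Pool.Agent.DChain

theorem result (d k : ℕ) (hd : 3 ≤ d) (hk : k + 2 ≤ d) (W : Set (FreeGroup (Fin k)))
    (L : Set (FreeGroup ℕ)) (hL : FiniteGen d L)
    (hW : ∀ (H : Type) [Group H], Obeys L H → Gen d H →
      Group.IsSolvable (vb W (⊤ : Subgroup H))) :
    LocFin L ↔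
      (∀ (B : Type) [Group B], Obeys L B → Group.FG B →
        (∀ w ∈ W, ∀ f : Fin k → B, FreeGroup.lift f w = 1) → Finite B) ∧
      ∀ p : ℕ, p.Prime → PLocFin p L :=
  ⟨fun h => ⟨fun B _ hB hfg _ => h B hB hfg, fun _ _ B _ hB hfg _ => h B hB hfg⟩,
    fun h => locFin_of_pgroups hd hk W L hL h.1 hW h.2⟩

end Pool.Agent.Results.MP_01f347_al.SolubleReduction
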